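import Pool.Agent.Y155.NE.TAB2
import Pool.Agent.Y5.S2.Stm

/-!
# Dirichlet integrals of the packets (helper971)

Job TAB3 of helper5: the packets of `Pool.Agent.Y155.NE.TAB2` together with the value of their
Dirichlet integrals, `S_TAB3`.
-/

set_option autoImplicit false

namespace Pool.Agent.Y971.S2

open Pool.Agent.Y5 Pool.Agent.Y5.D Pool.Agent.Y155.NE Finset
open Pool.Agent.Y155.ND hiding SS bb PP ZZ sum_b_sq

theorem sum_four (c : ℤ) (N : ℕ) : ∑ x ∈ Icc (c - N) (c + N), (x : ℝ) ^ 4 =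
    (2 * N + 1) * (c ^ 4 + 2 * c ^ 2 * (N * (N + 1)) +
      N * (N + 1) * (3 * N ^ 2 + 3 * N - 1) / 15) := by
  induction N with
  | zero => simp
  | succ N ih =>
    rw [sum_Icc_succ, ih]
    push_cast
    ring

theorem sum_prod3 (N : ℕ) (c : Z3) (f g h : ℤ → ℝ) :
    ∑ k ∈ cube N c, f (k 0) * g (k 1) * h (k 2) =
    (∑ x ∈ Icc (c 0 - N) (c 0 + N), f x) * (∑ x ∈ Icc (c 1 - N) (c 1 + N), g x) *
      (∑ x ∈ Icc (c 2 - N) (c 2 + N), h x) := by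
  have := Finset.prod_univ_sum (t := fun i : Fin 3 => Icc (c i - (N : ℤ)) (c i + N))
    (f := fun i x => (![f, g, h] i) x)
  simp only [Fin.prod_univ_three, Matrix.cons_val_zero, Matrix.cons_val_one,
    Matrix.cons_val] at this
  exact this.symm

/-- the mean of `|k|² (k₀² + k₁²)` over a cube with the centre `(a, b, 0)` -/
noncomputable def AA (a b x : ℝ) : ℝ :=
  a ^ 4 + 2 * a ^ 2 * (x * (x + 1)) + x * (x + 1) * (3 * x ^ 2 + 3 * x - 1) / 15 +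
  2 * ((a ^ 2 + x * (x + 1) / 3) * (b ^ 2 + x * (x + 1) / 3)) +
  (b ^ 4 + 2 * b ^ 2 * (x * (x + 1)) + x * (x + 1) * (3 * x ^ 2 + 3 * x - 1) / 15) +
  (a ^ 2 + x * (x + 1) / 3) * (x * (x + 1) / 3) + (b ^ 2 + x * (x + 1) / 3) * (x * (x + 1) / 3)

theorem sum_F (N : ℕ) (c : Z3) (hc : c 2 = 0) :
    ∑ k ∈ cube N c, dt k k * ((k 0 : ℝ) ^ 2 + (k 1 : ℝ) ^ 2 + (k 2 : ℝ) ^ 2) =
      m N ^ 3 * AA (c 0) (c 1) N := by
  have e : ∀ k : Z3, dt k k * ((k 0 : ℝ) ^ 2 + (k 1 : ℝ) ^ 2 + (k 2 : ℝ) ^ 2) =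
      ((k 0 : ℝ) ^ 4 * 1 * 1 + 2 * ((k 0 : ℝ) ^ 2 * (k 1 : ℝ) ^ 2 * 1)) +
      ((1 * (k 1 : ℝ) ^ 4 * 1) + ((k 0 : ℝ) ^ 2 * 1 * (k 2 : ℝ) ^ 2 +
      1 * (k 1 : ℝ) ^ 2 * (k 2 : ℝ) ^ 2)) := by
    intro k; unfold dt; ring
  rw [sum_congr rfl fun k _ => e k, sum_add_distrib, sum_add_distrib, sum_add_distrib,
    sum_add_distrib, ← mul_sum,
    sum_prod3 N c (fun x => (x : ℝ) ^ 4) (fun _ => 1) (fun _ => 1),
    sum_prod3 N c (fun x => (x : ℝ) ^ 2) (fun x => (x : ℝ) ^ 2) (fun _ => 1),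
    sum_prod3 N c (fun _ => 1) (fun x => (x : ℝ) ^ 4) (fun _ => 1),
    sum_prod3 N c (fun x => (x : ℝ) ^ 2) (fun _ => 1) (fun x => (x : ℝ) ^ 2),
    sum_prod3 N c (fun _ => 1) (fun x => (x : ℝ) ^ 2) (fun x => (x : ℝ) ^ 2)]
  simp only [sum_four, sum_sq, sum_one, hc]
  unfold AA m
  push_cast
  ring

/-- the main part -/
theorem sum_W {N : ℕ} (hN : 1 ≤ N) :
    ∑ k ∈ Q N, g N k ^ 2 * (dt k k * ((k 0 : ℝ) ^ 2 + (k 1 : ℝ) ^ 2 + (k 2 : ℝ) ^ 2)) =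
      m N ^ 3 * (5035672 / 9 * (N : ℝ) ^ 4 + 31655 / 9 * (N : ℝ) ^ 3 + 16 / 9 * (N : ℝ) ^ 2 -
        1 / 3 * N) := by
  rw [sum_g_sq hN (Subset.refl _), sum_F N (c0 N) rfl, sum_F N (c1 N) rfl, sum_F N (c2 N) rfl,
    sum_F N (c3 N) rfl]
  simp only [c0, c1, c2, c3, Matrix.cons_val_zero, Matrix.cons_val_one]
  unfold AA
  push_cast
  ring

section
variable {N : ℕ → ℕ} {γ : ℕ → ℝ} (hD : Da N γ)
include hD

theorem small_bd (n : ℕ) {k : Z3} (h : k ∈ cube (N n) (hh (N n) (N (n + 1))) ∨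
    k ∈ cube (N n) (-hh (N n) (N (n + 1)))) :
    0 ≤ dt k k * ((k 0 : ℝ) ^ 2 + (k 1 : ℝ) ^ 2 + (k 2 : ℝ) ^ 2) ∧
    dt k k * ((k 0 : ℝ) ^ 2 + (k 1 : ℝ) ^ 2 + (k 2 : ℝ) ^ 2) ≤
      456976 * (N (n + 1) : ℝ) ^ 4 := by
  have h1 := (norm_H hD h).2
  have h2 := norm_vec_sq k
  have h3 : dt k k = (k 0 : ℝ) ^ 2 + (k 1 : ℝ) ^ 2 := by unfold dt; ring
  have h4 : ‖vec k‖ ^ 2 ≤ (26 * (N (n + 1) : ℝ)) ^ 2 :=
    pow_le_pow_left₀ (norm_nonneg _) h1 2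
  rw [h2] at h4
  have a0 := sq_nonneg (k 0 : ℝ)
  have a1 := sq_nonneg (k 1 : ℝ)
  have a2 := sq_nonneg (k 2 : ℝ)
  constructor
  · rw [h3]; positivity
  · rw [h3]
    calc ((k 0 : ℝ) ^ 2 + (k 1 : ℝ) ^ 2) * ((k 0 : ℝ) ^ 2 + (k 1 : ℝ) ^ 2 + (k 2 : ℝ) ^ 2) ≤
        (26 * (N (n + 1) : ℝ)) ^ 2 * (26 * (N (n + 1) : ℝ)) ^ 2 :=
          mul_le_mul (by linarith) h4 (by positivity) (by positivity)
      _ = _ := by ring

/-- the Dirichlet integral before the normalisation -/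
noncomputable def TT (N : ℕ → ℕ) (γ : ℕ → ℝ) (n : ℕ) : ℝ :=
  ∑ k ∈ SS (N n) (N (n + 1)), bb N γ n k ^ 2 *
    (dt k k * ((k 0 : ℝ) ^ 2 + (k 1 : ℝ) ^ 2 + (k 2 : ℝ) ^ 2))

theorem TT_bd (n : ℕ) : 5035672 / 9 * ((N n : ℝ) ^ 2 * V (N n)) ≤ TT N γ n ∧
    TT N γ n ≤ (5035672 / 9 + 1 / 100) * ((N n : ℝ) ^ 2 * V (N n)) := by
  have hx := hD.nr n
  have hγ := (hD.pos n).le
  have hm := m_pos (N n)
  have hm3 : 0 < m (N n) ^ 3 := by positivity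
  have e : TT N γ n = m (N n) ^ 3 * (5035672 / 9 * (N n : ℝ) ^ 4 + 31655 / 9 * (N n : ℝ) ^ 3 +
      16 / 9 * (N n : ℝ) ^ 2 - 1 / 3 * N n) + γ n ^ 2 *
      (∑ k ∈ cube (N n) (hh (N n) (N (n + 1))),
        dt k k * ((k 0 : ℝ) ^ 2 + (k 1 : ℝ) ^ 2 + (k 2 : ℝ) ^ 2) +
      ∑ k ∈ cube (N n) (-hh (N n) (N (n + 1))),
        dt k k * ((k 0 : ℝ) ^ 2 + (k 1 : ℝ) ^ 2 + (k 2 : ℝ) ^ 2)) := by
    rw [TT, bb, sum_b_sq (hD.sc.one n) (hD.sc.two n), sum_W (hD.sc.one n)]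
  have s1 : 0 ≤ ∑ k ∈ cube (N n) (hh (N n) (N (n + 1))),
        dt k k * ((k 0 : ℝ) ^ 2 + (k 1 : ℝ) ^ 2 + (k 2 : ℝ) ^ 2) :=
    sum_nonneg fun k hk => (small_bd hD n (Or.inl hk)).1
  have s2 : 0 ≤ ∑ k ∈ cube (N n) (-hh (N n) (N (n + 1))),
        dt k k * ((k 0 : ℝ) ^ 2 + (k 1 : ℝ) ^ 2 + (k 2 : ℝ) ^ 2) :=
    sum_nonneg fun k hk => (small_bd hD n (Or.inr hk)).1
  have s3 : ∑ k ∈ cube (N n) (hh (N n) (N (n + 1))),
        dt k k * ((k 0 : ℝ) ^ 2 + (k 1 : ℝ) ^ 2 + (k 2 : ℝ) ^ 2) ≤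
        m (N n) ^ 3 * (456976 * (N (n + 1) : ℝ) ^ 4) :=
    (sum_le_card_nsmul _ _ _ fun k hk => (small_bd hD n (Or.inl hk)).2).trans
      (le_of_eq (by rw [nsmul_eq_mul, card_cube]))
  have s4 : ∑ k ∈ cube (N n) (-hh (N n) (N (n + 1))),
        dt k k * ((k 0 : ℝ) ^ 2 + (k 1 : ℝ) ^ 2 + (k 2 : ℝ) ^ 2) ≤
        m (N n) ^ 3 * (456976 * (N (n + 1) : ℝ) ^ 4) :=
    (sum_le_card_nsmul _ _ _ fun k hk => (small_bd hD n (Or.inr hk)).2).trans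
      (le_of_eq (by rw [nsmul_eq_mul, card_cube]))
  have s5 : γ n ^ 2 * (∑ k ∈ cube (N n) (hh (N n) (N (n + 1))),
        dt k k * ((k 0 : ℝ) ^ 2 + (k 1 : ℝ) ^ 2 + (k 2 : ℝ) ^ 2) +
      ∑ k ∈ cube (N n) (-hh (N n) (N (n + 1))),
        dt k k * ((k 0 : ℝ) ^ 2 + (k 1 : ℝ) ^ 2 + (k 2 : ℝ) ^ 2)) ≤
      1 / 1000 * (m (N n) ^ 3 * (N n : ℝ) ^ 4) := by
    have h0 := hD.sm0 n
    have hl := hD.le n
    calc _ ≤ γ n ^ 2 * (m (N n) ^ 3 * (456976 * (N (n + 1) : ℝ) ^ 4) +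
          m (N n) ^ 3 * (456976 * (N (n + 1) : ℝ) ^ 4)) :=
          mul_le_mul_of_nonneg_left (add_le_add s3 s4) (sq_nonneg _)
      _ = 913952 * (γ n * (γ n * (N (n + 1) : ℝ) ^ 4)) * m (N n) ^ 3 := by ring
      _ ≤ 913952 * (γ n * (N n : ℝ) ^ 4) * m (N n) ^ 3 :=
          mul_le_mul_of_nonneg_right (mul_le_mul_of_nonneg_left
            (mul_le_mul_of_nonneg_left hl hγ) (by norm_num)) hm3.le
      _ = 913952 / 10 ^ 24 * (10 ^ 24 * γ n) * (m (N n) ^ 3 * (N n : ℝ) ^ 4) := by ring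
      _ ≤ 913952 / 10 ^ 24 * 1 * (m (N n) ^ 3 * (N n : ℝ) ^ 4) :=
          mul_le_mul_of_nonneg_right (mul_le_mul_of_nonneg_left h0 (by norm_num))
            (by positivity)
      _ ≤ _ := mul_le_mul_of_nonneg_right (by norm_num) (by positivity)
  have s6 := mul_nonneg (sq_nonneg (γ n)) (add_nonneg s1 s2)
  have eV : (N n : ℝ) ^ 2 * V (N n) = m (N n) ^ 3 * (N n : ℝ) ^ 4 := by unfold V; ring
  rw [eV, e]
  have hx0 : (0 : ℝ) < N n := by linarith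
  have t1 : 0 ≤ 31655 / 9 * (N n : ℝ) ^ 3 + 16 / 9 * (N n : ℝ) ^ 2 - 1 / 3 * N n := by
    have : (N n : ℝ) ≤ (N n : ℝ) ^ 2 := by nlinarith
    have : 0 ≤ (N n : ℝ) ^ 3 := by positivity
    linarith
  have t2 : 31655 / 9 * (N n : ℝ) ^ 3 + 16 / 9 * (N n : ℝ) ^ 2 - 1 / 3 * N n ≤
      1 / 1000 * (N n : ℝ) ^ 4 := by
    have a1 : 100000000 * (N n : ℝ) ^ 3 ≤ (N n : ℝ) ^ 4 := by
      calc 100000000 * (N n : ℝ) ^ 3 ≤ N n * (N n : ℝ) ^ 3 :=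
            mul_le_mul_of_nonneg_right hx (by positivity)
        _ = _ := by ring
    have a2 : (N n : ℝ) ^ 2 ≤ (N n : ℝ) ^ 3 := by
      calc (N n : ℝ) ^ 2 = 1 * (N n : ℝ) ^ 2 := by ring
        _ ≤ N n * (N n : ℝ) ^ 2 := mul_le_mul_of_nonneg_right (by linarith) (by positivity)
        _ = _ := by ring
    linarith
  have u1 := mul_nonneg hm3.le t1
  have u2 := mul_le_mul_of_nonneg_left t2 hm3.le
  constructor
  · linarith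
  · linarith

theorem dir_PP (n : ℕ) : ∑' k, ‖vec k‖ ^ 2 * ‖PP N γ n k‖ ^ 2 = TT N γ n / ZZ N γ n := by
  rw [tsum_PP hD n _ (fun k hk => by rw [hk]; simp), TT, div_eq_mul_inv, ← cc_sq hD, sum_mul]
  refine sum_congr rfl fun k _ => ?_
  rw [norm_PP_sq hD, norm_vec_sq]
  ring

theorem dir_bd (n : ℕ) : |∑' k, ‖vec k‖ ^ 2 * ‖PP N γ n k‖ ^ 2 -
    5035672 / 4221600 * (20 * (N n : ℝ)) ^ 2| ≤ 1 / 10 ^ 5 * (20 * (N n : ℝ)) ^ 2 := by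
  rw [dir_PP hD]
  obtain ⟨h1, h2⟩ := TT_bd hD n
  have h3 := ZZ_lo hD n
  have h4 := ZZ_hi hD n
  have h5 := ZZ_pos hD n
  have hV := V_pos hD n
  have hx := hD.nr n
  have hx0 : (0 : ℝ) < N n := by linarith
  have hx2 : 0 < (N n : ℝ) ^ 2 := by positivity
  rw [abs_le]
  constructor
  · rw [neg_le_sub_iff_le_add]
    have : (5035672 / 4221600 - 1 / 10 ^ 5) * (20 * (N n : ℝ)) ^ 2 ≤ TT N γ n / ZZ N γ n := by
      rw [le_div_iff₀ h5]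
      calc (5035672 / 4221600 - 1 / 10 ^ 5) * (20 * (N n : ℝ)) ^ 2 * ZZ N γ n ≤
          (5035672 / 4221600 - 1 / 10 ^ 5) * (20 * (N n : ℝ)) ^ 2 *
            ((3518 / 3 + 1 / 1000) * V (N n)) :=
            mul_le_mul_of_nonneg_left h4 (mul_nonneg (by norm_num) (by positivity))
        _ = ((5035672 / 4221600 - 1 / 10 ^ 5) * 400 * (3518 / 3 + 1 / 1000)) *
            ((N n : ℝ) ^ 2 * V (N n)) := by ring
        _ ≤ 5035672 / 9 * ((N n : ℝ) ^ 2 * V (N n)) :=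
            mul_le_mul_of_nonneg_right (by norm_num) (by positivity)
        _ ≤ _ := h1
    linarith
  · have : TT N γ n / ZZ N γ n ≤ (5035672 / 4221600 + 1 / 10 ^ 5) * (20 * (N n : ℝ)) ^ 2 := by
      rw [div_le_iff₀ h5]
      calc TT N γ n ≤ (5035672 / 9 + 1 / 100) * ((N n : ℝ) ^ 2 * V (N n)) := h2
        _ ≤ ((5035672 / 4221600 + 1 / 10 ^ 5) * 400 * (3518 / 3)) *
            ((N n : ℝ) ^ 2 * V (N n)) :=
            mul_le_mul_of_nonneg_right (by norm_num) (by positivity)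
        _ = (5035672 / 4221600 + 1 / 10 ^ 5) * (20 * (N n : ℝ)) ^ 2 *
            (3518 / 3 * V (N n)) := by ring
        _ ≤ _ := mul_le_mul_of_nonneg_left h3 (by positivity)
    linarith

end

/-- **TAB3.** Existence of packets with the interaction table and the values of the Dirichlet
integrals. -/
theorem t_TAB3 : Pool.Agent.Y5.S2.S_TAB3 := by
  refine ⟨bet, 1, 5035672 / 4221600, 4, 2000000000, bet_pos, one_pos, by norm_num, by norm_num,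
    by norm_num, fun K γ h0 hK h20 hγ => ?_⟩
  have hKN : ∀ n, K n = 20 * (K n / 20) := fun n => by have := h20 n; omega
  have hN0 : ∀ n, 100000000 ≤ K n / 20 := by
    intro n
    induction n with
    | zero => omega
    | succ n ih =>
      have := hK n
      omega
  have hD : Da (fun n => K n / 20) γ := by
    refine ⟨⟨fun n => ?_, fun n => ?_⟩, hN0, fun n => (hγ n).1, fun n => ?_⟩
    · have := hN0 n
      show 1 ≤ K n / 20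
      omega
    · have := hK n
      have := hN0 n
      show 100000000 * (K n / 20) ≤ K (n + 1) / 20
      omega
    · have h1 := (hγ n).2
      have h2 : (K (n + 1) : ℝ) = 20 * ((K (n + 1) / 20 : ℕ) : ℝ) := by
        exact_mod_cast hKN (n + 1)
      have h3 : (K n : ℝ) = 20 * ((K n / 20 : ℕ) : ℝ) := by
        exact_mod_cast hKN n
      have h4 : (100000000 : ℝ) ≤ ((K n / 20 : ℕ) : ℝ) := by exact_mod_cast hN0 n
      show γ n * ((K (n + 1) / 20 : ℕ) : ℝ) ^ 4 ≤ ((K n / 20 : ℕ) : ℝ) ^ 4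
      rw [h2, h3, mul_div_mul_left _ _ (by norm_num), div_pow, ← mul_div_assoc,
        div_le_one (by positivity)] at h1
      exact h1
  refine ⟨_, _, _, _, tab_thm hD hKN, fun n => ?_⟩
  have h3 : (K n : ℝ) = 20 * ((K n / 20 : ℕ) : ℝ) := by
    exact_mod_cast hKN n
  rw [h3]
  exact dir_bd hD n

end Pool.Agent.Y971.S2
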